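import Pool.Agent.H.MP_5b3c48_co.Main

set_option autoImplicit false

namespace Pool.Agent.Results.MP_5b3c48_co.NotUnique

open SimpleGraph Pool.Agent.H.MP_5b3c48_co

/-- For `k = 4` and every odd `n ≥ 7`, `H^+(n,2,2)` has a non-isomorphic twin. -/
theorem result (n : ℕ) (hn : 7 ≤ n) (hodd : Odd n) (x y : Fin n) (hxy : x ≠ y)
    (hna : ¬ (Hn n 2).Adj x y) :
    (∃ G' : SimpleGraph (Fin n), (blow (cycleGraph 4)).Free G' ∧ (blow (pathGraph 5)).Free G' ∧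
      tri G' = tri (Hn n 2 ⊔ edge x y) ∧ IsEmpty (G' ≃g (Hn n 2 ⊔ edge x y))) ∧
    ¬ UniqueExtremal (blow (cycleGraph 4)) (Hn n 2 ⊔ edge x y) ∧
    ¬ UniqueExtremal (blow (pathGraph 5)) (Hn n 2 ⊔ edge x y) := by
  obtain ⟨G', h1, h2, h3, h4⟩ := twin n hn hodd x y hxy hna
  refine ⟨⟨G', h1, h2, h3, h4⟩, fun h => ?_, fun h => ?_⟩
  · obtain ⟨e⟩ := h.2 G' ⟨h1, fun G hG => h3 ▸ h.1.2 G hG⟩
    exact h4.false e
  · obtain ⟨e⟩ := h.2 G' ⟨h2, fun G hG => h3 ▸ h.1.2 G hG⟩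
    exact h4.false e

end Pool.Agent.Results.MP_5b3c48_co.NotUnique
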